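import Mathlib

/-!
# Clique partition number against clique cover number (MP_10f644_co): `c* ≤ 1/16`
-/

namespace H801.CQ

open Finset Classical

/-- `F` is a family of cliques of `G`, each with at least two vertices. -/
def IsCliqueFamily {V : Type} (G : SimpleGraph V) (F : Finset (Finset V)) : Prop :=
  ∀ s ∈ F, 2 ≤ s.card ∧ G.IsClique (s : Set V)

/-- Every edge of `G` lies in some member of `F`. -/
def CoversEdges {V : Type} (G : SimpleGraph V) (F : Finset (Finset V)) : Prop :=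
  ∀ u v, G.Adj u v → ∃ s, s ∈ F ∧ u ∈ s ∧ v ∈ s

/-- Every edge of `G` lies in exactly one member of `F`. -/
def PartitionsEdges {V : Type} (G : SimpleGraph V) (F : Finset (Finset V)) : Prop :=
  ∀ u v, G.Adj u v → ∃! s, s ∈ F ∧ u ∈ s ∧ v ∈ s

/-- The edge clique cover number. -/
noncomputable def cc {V : Type} (G : SimpleGraph V) : ℕ :=
  sInf {k | ∃ F : Finset (Finset V), IsCliqueFamily G F ∧ CoversEdges G F ∧ F.card = k}

/-- The clique partition number. -/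
noncomputable def cp {V : Type} (G : SimpleGraph V) : ℕ :=
  sInf {k | ∃ F : Finset (Finset V), IsCliqueFamily G F ∧ PartitionsEdges G F ∧ F.card = k}

/-! ### Tasks -/

/-- M: a matching with `r` edges in a graph of large minimum degree -/
def MatchLem : Prop := ∀ (V : Type) (G : SimpleGraph V) (N : Finset V) (r : ℕ),
  (∀ u ∈ N, ∃ A : Finset V, (∀ x ∈ A, x ∈ N ∧ G.Adj u x) ∧ 2 * r ≤ A.card + 1) → N.Nonempty →
  ∃ M : Finset (Finset V), M.card = r ∧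
    (∀ e ∈ M, e.card = 2 ∧ e ⊆ N ∧ G.IsClique (e : Set V)) ∧
    (∀ e ∈ M, ∀ e' ∈ M, e ≠ e' → Disjoint e e')

/-- X: adding a vertex -/
def Extend : Prop := ∀ (V : Type) (G : SimpleGraph V) (v : V) (N : Finset V)
    (M : Finset (Finset V)) (G' : SimpleGraph V) (F' : Finset (Finset V)),
  (∀ u, G.Adj v u ↔ u ∈ N) →
  (∀ e ∈ M, e.card = 2 ∧ e ⊆ N ∧ G.IsClique (e : Set V)) →
  (∀ e ∈ M, ∀ e' ∈ M, e ≠ e' → Disjoint e e') →
  (∀ a b, G'.Adj a b ↔ G.Adj a b ∧ a ≠ v ∧ b ≠ v ∧ ∀ e ∈ M, ¬ (a ∈ e ∧ b ∈ e)) →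
  IsCliqueFamily G' F' → PartitionsEdges G' F' →
  ∃ F : Finset (Finset V), IsCliqueFamily G F ∧ PartitionsEdges G F ∧
    F.card + M.card ≤ F'.card + N.card

/-- E: the theorem of Erdős, Goodman and Pósa -/
def EGP : Prop := ∀ (V : Type) (s : Finset V) (G : SimpleGraph V),
  (∀ u v, G.Adj u v → u ∈ s) →
  ∃ F : Finset (Finset V), IsCliqueFamily G F ∧ PartitionsEdges G F ∧ F.card ≤ s.card ^ 2 / 4

/-- L: partition of the vertices into cliques, single edges between different classes -/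
def LabelLem : Prop := ∀ (n k : ℕ) (G : SimpleGraph (Fin n)) (L : Fin n → Fin k),
  (∀ u v, u ≠ v → L u = L v → (∃ w, G.Adj u w) → (∃ w, G.Adj v w) → G.Adj u v) →
  ∃ F : Finset (Finset (Fin n)), IsCliqueFamily G F ∧ PartitionsEdges G F ∧
    2 * F.card ≤ 2 * k + ((univ : Finset (Fin n × Fin n)).filter
      (fun p => G.Adj p.1 p.2 ∧ L p.1 ≠ L p.2)).card

/-- T2: graphs covered by two cliques -/
def Two : Prop := ∀ (n : ℕ) (G : SimpleGraph (Fin n)) (V1 V2 : Finset (Fin n)),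
  (∀ u v, G.Adj u v ↔ u ≠ v ∧ ((u ∈ V1 ∧ v ∈ V1) ∨ (u ∈ V2 ∧ v ∈ V2))) →
  ∃ F : Finset (Finset (Fin n)), IsCliqueFamily G F ∧ PartitionsEdges G F ∧
    8 * F.card ≤ n ^ 2 + 16

/-- T3a: graphs covered by three cliques, ordered sizes of the private parts -/
def ThreeOrd : Prop := ∀ (n : ℕ) (G : SimpleGraph (Fin n)) (V1 V2 V3 : Finset (Fin n)),
  (∀ u v, G.Adj u v ↔ u ≠ v ∧ ((u ∈ V1 ∧ v ∈ V1) ∨ (u ∈ V2 ∧ v ∈ V2) ∨ (u ∈ V3 ∧ v ∈ V3))) →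
  ((univ.filter (fun u => u ∉ V1 ∧ u ∉ V2 ∧ u ∈ V3)).card ≤
    (univ.filter (fun u => u ∉ V1 ∧ u ∈ V2 ∧ u ∉ V3)).card) →
  ((univ.filter (fun u => u ∉ V1 ∧ u ∈ V2 ∧ u ∉ V3)).card ≤
    (univ.filter (fun u => u ∈ V1 ∧ u ∉ V2 ∧ u ∉ V3)).card) →
  ∃ F : Finset (Finset (Fin n)), IsCliqueFamily G F ∧ PartitionsEdges G F ∧
    16 * F.card ≤ 3 * n ^ 2 + 64

/-- T3b: graphs covered by three cliques -/
def Three : Prop := ∀ (n : ℕ) (G : SimpleGraph (Fin n)) (V1 V2 V3 : Finset (Fin n)),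
  (∀ u v, G.Adj u v ↔ u ≠ v ∧ ((u ∈ V1 ∧ v ∈ V1) ∨ (u ∈ V2 ∧ v ∈ V2) ∨ (u ∈ V3 ∧ v ∈ V3))) →
  ∃ F : Finset (Finset (Fin n)), IsCliqueFamily G F ∧ PartitionsEdges G F ∧
    16 * F.card ≤ 3 * n ^ 2 + 64

/-- C: counting pairs by types -/
def CountLem : Prop := ∀ (n : ℕ) (r : Fin n → Fin 8) (T : Fin 8 → Fin 8 → Bool),
  ((univ : Finset (Fin n × Fin n)).filter (fun p => T (r p.1) (r p.2) = true)).card
    = ∑ a, ∑ b, if T a b = true then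
        (univ.filter (fun u => r u = a)).card * (univ.filter (fun u => r u = b)).card else 0

/-- I: the inequality -/
def Ineq : Prop := ∀ (x1 x2 x3 y1 y2 y3 z : ℝ), 0 ≤ x3 → x3 ≤ x2 → x2 ≤ x1 → 0 ≤ y1 → 0 ≤ y2 →
  0 ≤ y3 → 0 ≤ z →
    8 * (2 * (x1 * (y2+y3+z) + x2 * (y1+y3+z) + x3 * (y1+y2+z))
      + 3 * (x2 * (y3+z) + x3 * (y2+z) + y1 * (y2+y3+z) + y1 * x3)
      + 3 * (x1 * (y3+z) + x3 * (y1+z) + y2 * (y1+y3+z) + y2 * x3)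
      + 2 * (x1 * (y2+z) + x2 * (y1+z) + y3 * (y1+y2+z) + y3 * x2))
    ≤ 15 * (x1 + x2 + x3 + y1 + y2 + y3 + z) ^ 2

/-- the constant of the problem -/
noncomputable def cStar : ℝ := sSup {c : ℝ | 0 < c ∧ ∀ N : ℕ, ∃ n : ℕ, N ≤ n ∧
  ∃ G : SimpleGraph (Fin n), G ≠ ⊥ ∧ (cp G : ℝ) / (cc G : ℝ) > c * (n : ℝ) ^ 2}

/-- the theorem -/
def Main : Prop :=
  (∀ (n : ℕ) (G : SimpleGraph (Fin n)), G ≠ ⊥ →
    (cp G : ℝ) ≤ ((n : ℝ) ^ 2 / 16 + 3) * (cc G : ℝ)) ∧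
  (∀ c : ℝ, (∀ N : ℕ, ∃ n : ℕ, N ≤ n ∧ ∃ G : SimpleGraph (Fin n), G ≠ ⊥ ∧
    (cp G : ℝ) / (cc G : ℝ) > c * (n : ℝ) ^ 2) → c ≤ 1 / 16) ∧
  cStar ≤ 1 / 16

end H801.CQ
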