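import Mathlib
import Pool.Agent.H801R5.CQ.Defs

set_option autoImplicit false

namespace H801.CQ

open Finset Classical

theorem countLem_key (n : ℕ) (r : Fin n → Fin 8) (g : Fin 8 → ℕ) :
    ∑ u : Fin n, g (r u) = ∑ a, (univ.filter (fun u => r u = a)).card * g a := by
  rw [← Finset.sum_fiberwise' (univ : Finset (Fin n)) r g]
  refine Finset.sum_congr rfl fun a _ => ?_
  rw [Finset.sum_const, smul_eq_mul]

theorem countLem : CountLem := by
  intro n r T
  rw [Finset.card_filter, Fintype.sum_prod_type]
  have h1 : ∀ a : Fin 8, ∑ v : Fin n, (if T a (r v) = true then 1 else 0) =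
      ∑ b, (univ.filter (fun u => r u = b)).card * (if T a b = true then 1 else 0) := fun a =>
    countLem_key n r (fun b => if T a b = true then 1 else 0)
  have h2 : ∑ u : Fin n, ∑ v : Fin n, (if T (r u) (r v) = true then 1 else 0) =
      ∑ a, (univ.filter (fun u => r u = a)).card *
        ∑ v : Fin n, (if T a (r v) = true then 1 else 0) :=
    countLem_key n r (fun a => ∑ v : Fin n, (if T a (r v) = true then 1 else 0))
  refine h2.trans ?_
  refine Finset.sum_congr rfl fun a _ => ?_
  rw [h1 a, Finset.mul_sum]
  refine Finset.sum_congr rfl fun b _ => ?_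
  by_cases h : T a b = true
  · simp [h]
  · simp [h]

end H801.CQ
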