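import Mathlib
import Pool.Agent.H801R5.CQ.Defs

namespace H801.CQ

open Finset Classical

theorem E_num (n d f f' M : ℕ) (hF : f + M ≤ f' + d) (hf' : f' ≤ n ^ 2 / 4)
    (hM : M = d - (n + 1) / 2) : f ≤ (n + 1) ^ 2 / 4 := by
  have h1 : f ≤ n ^ 2 / 4 + (n + 1) / 2 := by omega
  refine h1.trans ?_
  rcases Nat.even_or_odd' n with ⟨k, hk | hk⟩
  · subst hk
    have e1 : (2 * k) ^ 2 / 4 = k ^ 2 := by
      rw [show (2 * k) ^ 2 = 4 * k ^ 2 by ring]; omega
    have e2 : (2 * k + 1) ^ 2 / 4 = k ^ 2 + k := by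
      rw [show (2 * k + 1) ^ 2 = 4 * (k ^ 2 + k) + 1 by ring]; omega
    rw [e1, e2]
    omega
  · subst hk
    have e1 : (2 * k + 1) ^ 2 / 4 = k ^ 2 + k := by
      rw [show (2 * k + 1) ^ 2 = 4 * (k ^ 2 + k) + 1 by ring]; omega
    have e2 : (2 * k + 1 + 1) ^ 2 / 4 = k ^ 2 + 2 * k + 1 := by
      rw [show (2 * k + 1 + 1) ^ 2 = 4 * (k ^ 2 + 2 * k + 1) by ring]; omega
    rw [e1, e2]
    omega

theorem egp (h1 : MatchLem) (h2 : Extend) : EGP := by
  intro V
  have key : ∀ (n : ℕ) (s : Finset V) (G : SimpleGraph V), s.card = n →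
      (∀ u v, G.Adj u v → u ∈ s) →
      ∃ F : Finset (Finset V), IsCliqueFamily G F ∧ PartitionsEdges G F ∧ F.card ≤ n ^ 2 / 4 := by
    intro n
    induction n with
    | zero =>
      intro s G hs hG
      rw [Finset.card_eq_zero] at hs
      refine ⟨∅, ?_, ?_, by simp⟩
      · intro s hs
        simp at hs
      · intro u v huv
        have := hG u v huv
        rw [hs] at this
        simp at this
    | succ n ih =>
      intro s G hs hG
      have hne : s.Nonempty := by
        rw [← Finset.card_pos, hs]; omega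
      obtain ⟨v, hv, hmin⟩ := Finset.exists_min_image s (fun u => (s.filter (G.Adj u)).card) hne
      set N := s.filter (G.Adj v) with hN
      have hNm : ∀ u, G.Adj v u ↔ u ∈ N := by
        intro u
        rw [hN, Finset.mem_filter]
        exact ⟨fun h => ⟨hG u v h.symm, h⟩, fun h => h.2⟩
      have hM : ∃ M : Finset (Finset V), M.card = N.card - (n + 1) / 2 ∧
          (∀ e ∈ M, e.card = 2 ∧ e ⊆ N ∧ G.IsClique (e : Set V)) ∧
          (∀ e ∈ M, ∀ e' ∈ M, e ≠ e' → Disjoint e e') := by
        by_cases hd : N.card ≤ (n + 1) / 2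
        · refine ⟨∅, ?_, ?_, ?_⟩
          · rw [Finset.card_empty]; omega
          · intro e he; simp at he
          · intro e he; simp at he
        · refine h1 V G N (N.card - (n + 1) / 2) (fun u hu => ?_) ?_
          · refine ⟨N.filter (G.Adj u), fun x hx => Finset.mem_filter.1 hx, ?_⟩
            have hus : u ∈ s := (Finset.mem_filter.1 hu).1
            have e1 : N.card ≤ (s.filter (G.Adj u)).card := hmin u hus
            have e2 : s.filter (G.Adj u) ⊆ N.filter (G.Adj u) ∪ (s \ N) := by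
              intro x hx
              rw [Finset.mem_filter] at hx
              rw [Finset.mem_union, Finset.mem_filter, Finset.mem_sdiff]
              by_cases hxN : x ∈ N
              · exact Or.inl ⟨hxN, hx.2⟩
              · exact Or.inr ⟨hx.1, hxN⟩
            have e3 := (Finset.card_le_card e2).trans (Finset.card_union_le _ _)
            have e4 : (s \ N).card = s.card - N.card :=
              Finset.card_sdiff_of_subset (Finset.filter_subset _ _)
            have e5 : N.card ≤ s.card := Finset.card_le_card (Finset.filter_subset _ _)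
            omega
          · rw [← Finset.card_pos]; omega
      obtain ⟨M, hMc, hM2, hM3⟩ := hM
      let G' : SimpleGraph V :=
        { Adj := fun a b => G.Adj a b ∧ a ≠ v ∧ b ≠ v ∧ ∀ e ∈ M, ¬ (a ∈ e ∧ b ∈ e)
          symm := ⟨fun a b h => ⟨h.1.symm, h.2.2.1, h.2.1, fun e he hh => h.2.2.2 e he ⟨hh.2, hh.1⟩⟩⟩
          loopless := ⟨fun a h => G.loopless.irrefl a h.1⟩ }
      have hG' : ∀ a b, G'.Adj a b ↔ G.Adj a b ∧ a ≠ v ∧ b ≠ v ∧ ∀ e ∈ M, ¬ (a ∈ e ∧ b ∈ e) :=
        fun a b => Iff.rfl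
      have hcard : (s.erase v).card = n := by
        rw [Finset.card_erase_of_mem hv, hs]; rfl
      obtain ⟨F', hF1, hF2, hF3⟩ := ih (s.erase v) G' hcard (fun a b hab =>
        Finset.mem_erase.2 ⟨hab.2.1, hG a b hab.1⟩)
      obtain ⟨F, hFa, hFb, hFc⟩ := h2 V G v N M G' F' hNm hM2 hM3 hG' hF1 hF2
      exact ⟨F, hFa, hFb, E_num n N.card F.card F'.card M.card hFc hF3 hMc⟩
  intro s G hG
  exact key s.card s G rfl hG

end H801.CQ
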