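import Mathlib
import Pool.Agent.H801R5.CQ.Defs

namespace H801.CQ

open Finset Classical

theorem L_pair {V : Type} [DecidableEq V] {a b u v : V} (hu : u ∈ ({a, b} : Finset V)) (hv : v ∈ ({a, b} : Finset V))
    (huv : u ≠ v) : (u = a ∧ v = b) ∨ (u = b ∧ v = a) := by
  simp only [Finset.mem_insert, Finset.mem_singleton] at hu hv
  rcases hu with rfl | rfl <;> rcases hv with rfl | rfl
  · exact absurd rfl huv
  · exact Or.inl ⟨rfl, rfl⟩
  · exact Or.inr ⟨rfl, rfl⟩
  · exact absurd rfl huv

theorem labelLem : LabelLem := by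
  intro n k G L hL
  let K : Fin k → Finset (Fin n) := fun c => univ.filter (fun v => L v = c ∧ ∃ w, G.Adj v w)
  have hK : ∀ c v, v ∈ K c ↔ L v = c ∧ ∃ w, G.Adj v w := by
    intro c v
    simp [K]
  set F1 : Finset (Finset (Fin n)) := ((univ : Finset (Fin k)).image K).filter (fun s => 2 ≤ s.card)
    with hF1
  set P : Finset (Fin n × Fin n) := univ.filter (fun p => p.1 < p.2 ∧ G.Adj p.1 p.2 ∧ L p.1 ≠ L p.2)
    with hP
  set F2 : Finset (Finset (Fin n)) := P.image (fun p => ({p.1, p.2} : Finset (Fin n))) with hF2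
  have hF1m : ∀ s, s ∈ F1 ↔ (∃ c, K c = s) ∧ 2 ≤ s.card := by
    intro s
    rw [hF1, Finset.mem_filter, Finset.mem_image]
    simp
  have hF2m : ∀ s, s ∈ F2 ↔ ∃ a b, (a < b ∧ G.Adj a b ∧ L a ≠ L b) ∧ ({a, b} : Finset (Fin n)) = s := by
    intro s
    rw [hF2, Finset.mem_image]
    constructor
    · rintro ⟨⟨a, b⟩, hp, hs⟩
      rw [hP, Finset.mem_filter] at hp
      exact ⟨a, b, hp.2, hs⟩
    · rintro ⟨a, b, hp, hs⟩
      exact ⟨(a, b), by rw [hP, Finset.mem_filter]; exact ⟨Finset.mem_univ _, hp⟩, hs⟩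
  refine ⟨F1 ∪ F2, ?_, ?_, ?_⟩
  · intro s hs
    rw [Finset.mem_union, hF1m, hF2m] at hs
    rcases hs with ⟨⟨c, rfl⟩, hc⟩ | ⟨a, b, ⟨hab, hadj, -⟩, rfl⟩
    · refine ⟨hc, ?_⟩
      intro u hu v hv huv
      rw [Finset.mem_coe, hK] at hu hv
      exact hL u v huv (hu.1.trans hv.1.symm) hu.2 hv.2
    · refine ⟨by rw [Finset.card_pair (ne_of_lt hab)], ?_⟩
      intro u hu v hv huv
      rw [Finset.mem_coe] at hu hv
      rcases L_pair hu hv huv with ⟨rfl, rfl⟩ | ⟨rfl, rfl⟩
      · exact hadj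
      · exact hadj.symm
  · intro u v huv
    have hne : u ≠ v := huv.ne
    by_cases hl : L u = L v
    · refine ⟨K (L u), ⟨?_, ?_, ?_⟩, ?_⟩
      · rw [Finset.mem_union, hF1m]
        left
        refine ⟨⟨_, rfl⟩, ?_⟩
        have hsub : ({u, v} : Finset (Fin n)) ⊆ K (L u) := by
          intro x hx
          simp only [Finset.mem_insert, Finset.mem_singleton] at hx
          rcases hx with rfl | rfl
          · exact (hK _ _).2 ⟨rfl, v, huv⟩
          · exact (hK _ _).2 ⟨hl.symm, u, huv.symm⟩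
        have := Finset.card_le_card hsub
        rwa [Finset.card_pair hne] at this
      · exact (hK _ _).2 ⟨rfl, v, huv⟩
      · exact (hK _ _).2 ⟨hl.symm, u, huv.symm⟩
      · rintro s ⟨hs, hus, hvs⟩
        rw [Finset.mem_union, hF1m, hF2m] at hs
        rcases hs with ⟨⟨c, rfl⟩, hc⟩ | ⟨a, b, ⟨hab, hadj, hlab⟩, rfl⟩
        · rw [hK] at hus
          rw [hus.1]
        · exfalso
          rcases L_pair hus hvs hne with ⟨rfl, rfl⟩ | ⟨rfl, rfl⟩
          · exact hlab hl
          · exact hlab hl.symm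
    · refine ⟨{u, v}, ⟨?_, by simp, by simp⟩, ?_⟩
      · rw [Finset.mem_union, hF2m]
        right
        rcases lt_or_gt_of_ne hne with h | h
        · exact ⟨u, v, ⟨h, huv, hl⟩, rfl⟩
        · exact ⟨v, u, ⟨h, huv.symm, fun h' => hl h'.symm⟩, Finset.pair_comm v u⟩
      · rintro s ⟨hs, hus, hvs⟩
        rw [Finset.mem_union, hF1m, hF2m] at hs
        rcases hs with ⟨⟨c, rfl⟩, hc⟩ | ⟨a, b, ⟨hab, hadj, hlab⟩, rfl⟩
        · rw [hK] at hus hvs
          exact absurd (hus.1.trans hvs.1.symm) hl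
        · rcases L_pair hus hvs hne with ⟨rfl, rfl⟩ | ⟨rfl, rfl⟩
          · rfl
          · exact Finset.pair_comm _ _
  · have hc1 : F1.card ≤ k := by
      refine (Finset.card_filter_le _ _).trans ?_
      refine Finset.card_image_le.trans ?_
      rw [Finset.card_univ, Fintype.card_fin]
    have hc2 : F2.card ≤ P.card := Finset.card_image_le
    have hc3 : 2 * P.card ≤ ((univ : Finset (Fin n × Fin n)).filter
        (fun p => G.Adj p.1 p.2 ∧ L p.1 ≠ L p.2)).card := by
      have hdis : Disjoint P (P.image Prod.swap) := by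
        rw [Finset.disjoint_left]
        intro p hp hp'
        rw [Finset.mem_image] at hp'
        obtain ⟨q, hq, hqp⟩ := hp'
        rw [hP, Finset.mem_filter] at hp hq
        have e1 := hp.2.1
        have e2 := hq.2.1
        rw [← hqp] at e1
        simp only [Prod.fst_swap, Prod.snd_swap] at e1
        exact absurd e1 (not_lt.2 e2.le)
      have hsub : P ∪ P.image Prod.swap ⊆ (univ : Finset (Fin n × Fin n)).filter
          (fun p => G.Adj p.1 p.2 ∧ L p.1 ≠ L p.2) := by
        intro p hp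
        rw [Finset.mem_filter]
        refine ⟨Finset.mem_univ _, ?_⟩
        rw [Finset.mem_union, Finset.mem_image] at hp
        rcases hp with hp | ⟨q, hq, rfl⟩
        · rw [hP, Finset.mem_filter] at hp
          exact hp.2.2
        · rw [hP, Finset.mem_filter] at hq
          exact ⟨hq.2.2.1.symm, fun h => hq.2.2.2 h.symm⟩
      have h3 := Finset.card_le_card hsub
      rw [Finset.card_union_of_disjoint hdis,
        Finset.card_image_of_injective _ Prod.swap_injective] at h3
      omega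
    have h4 := Finset.card_union_le F1 F2
    omega

end H801.CQ
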