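import Mathlib
import Pool.Agent.H801R5.CQ.Defs

namespace H801.CQ

open Finset Classical

theorem matchLem : MatchLem := by
  intro V G N r hA hN
  have key : ∀ k : ℕ, k ≤ r → ∃ M : Finset (Finset V), M.card = k ∧
      (∀ e ∈ M, e.card = 2 ∧ e ⊆ N ∧ G.IsClique (e : Set V)) ∧
      (∀ e ∈ M, ∀ e' ∈ M, e ≠ e' → Disjoint e e') := by
    intro k
    induction k with
    | zero => intro _; exact ⟨∅, by simp, by simp, by simp⟩
    | succ k ih =>
      intro hk
      obtain ⟨M, hM1, hM2, hM3⟩ := ih (by omega)
      set W : Finset V := M.biUnion id with hW
      have hWc : W.card ≤ 2 * k := by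
        calc W.card ≤ ∑ e ∈ M, (id e).card := Finset.card_biUnion_le
          _ = ∑ e ∈ M, 2 := Finset.sum_congr rfl fun e he => (hM2 e he).1
          _ = 2 * k := by rw [Finset.sum_const, hM1, smul_eq_mul, mul_comm]
      have hNc : W.card < N.card := by
        obtain ⟨u0, hu0⟩ := hN
        obtain ⟨A, hA1, hA2⟩ := hA u0 hu0
        have h1 : A ⊆ N.erase u0 := by
          intro x hx
          rw [Finset.mem_erase]
          exact ⟨fun h => G.loopless.irrefl u0 (h ▸ (hA1 x hx).2), (hA1 x hx).1⟩
        have h2 := Finset.card_le_card h1
        rw [Finset.card_erase_of_mem hu0] at h2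
        have h3 : 0 < N.card := Finset.card_pos.2 ⟨u0, hu0⟩
        omega
      obtain ⟨u, huN, huW⟩ := Finset.exists_mem_notMem_of_card_lt_card hNc
      obtain ⟨A, hA1, hA2⟩ := hA u huN
      have hAc : W.card < A.card := by omega
      obtain ⟨x, hxA, hxW⟩ := Finset.exists_mem_notMem_of_card_lt_card hAc
      have hux : u ≠ x := (hA1 x hxA).2.ne
      have hmem : ∀ e ∈ M, ∀ a ∈ e, a ∈ W := fun e he a ha =>
        Finset.mem_biUnion.2 ⟨e, he, ha⟩
      have hdis : ∀ e ∈ M, Disjoint ({u, x} : Finset V) e := by
        intro e he
        rw [Finset.disjoint_left]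
        intro a ha hae
        simp only [Finset.mem_insert, Finset.mem_singleton] at ha
        rcases ha with rfl | rfl
        · exact huW (hmem e he _ hae)
        · exact hxW (hmem e he _ hae)
      have hnot : ({u, x} : Finset V) ∉ M := by
        intro h
        exact huW (hmem _ h u (by simp))
      refine ⟨insert {u, x} M, ?_, ?_, ?_⟩
      · rw [Finset.card_insert_of_notMem hnot, hM1]
      · intro e he
        rcases Finset.mem_insert.1 he with rfl | he
        · refine ⟨Finset.card_pair hux, ?_, ?_⟩
          · intro a ha
            simp only [Finset.mem_insert, Finset.mem_singleton] at ha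
            rcases ha with rfl | rfl
            · exact huN
            · exact (hA1 _ hxA).1
          · intro a ha b hb hab
            simp only [Finset.coe_insert, Finset.coe_singleton, Set.mem_insert_iff,
              Set.mem_singleton_iff] at ha hb
            rcases ha with rfl | rfl <;> rcases hb with rfl | rfl
            · exact absurd rfl hab
            · exact (hA1 _ hxA).2
            · exact (hA1 _ hxA).2.symm
            · exact absurd rfl hab
        · exact hM2 e he
      · intro e he e' he' hne
        rcases Finset.mem_insert.1 he with rfl | he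
        · rcases Finset.mem_insert.1 he' with rfl | he'
          · exact absurd rfl hne
          · exact hdis e' he'
        · rcases Finset.mem_insert.1 he' with rfl | he'
          · exact (hdis e he).symm
          · exact hM3 e he e' he' hne
  exact key r le_rfl

end H801.CQ
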