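import Mathlib
import Pool.Agent.H801R5.CQ.Defs

namespace H801.CQ

open Finset Classical

private theorem t2_aux (hL : LabelLem) (n : ℕ) (G : SimpleGraph (Fin n)) (V1 V2 : Finset (Fin n))
    (h : ∀ u v, G.Adj u v ↔ u ≠ v ∧ ((u ∈ V1 ∧ v ∈ V1) ∨ (u ∈ V2 ∧ v ∈ V2))) :
    ∃ F : Finset (Finset (Fin n)), IsCliqueFamily G F ∧ PartitionsEdges G F ∧
      F.card ≤ 2 + (V1 ∩ V2).card * (V2 \ V1).card := by
  obtain ⟨F, hF1, hF2, hF3⟩ := hL n 2 G (fun u => if u ∈ V1 then 0 else 1) (by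
    intro u v huv hl hu hv
    rw [h]
    refine ⟨huv, ?_⟩
    by_cases h1 : u ∈ V1
    · by_cases h2 : v ∈ V1
      · exact Or.inl ⟨h1, h2⟩
      · simp [h1, h2] at hl
    · by_cases h2 : v ∈ V1
      · simp [h1, h2] at hl
      · obtain ⟨w, hw⟩ := hu
        obtain ⟨w', hw'⟩ := hv
        rw [h] at hw hw'
        rcases hw.2 with h3 | h3
        · exact absurd h3.1 h1
        · rcases hw'.2 with h4 | h4
          · exact absurd h4.1 h2
          · exact Or.inr ⟨h3.1, h4.1⟩)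
  refine ⟨F, hF1, hF2, ?_⟩
  have hsub : ((univ : Finset (Fin n × Fin n)).filter
      (fun p => G.Adj p.1 p.2 ∧ (if p.1 ∈ V1 then (0 : Fin 2) else 1) ≠
        (if p.2 ∈ V1 then (0 : Fin 2) else 1))) ⊆
      ((V1 ∩ V2) ×ˢ (V2 \ V1)) ∪ ((V2 \ V1) ×ˢ (V1 ∩ V2)) := by
    rintro ⟨a, b⟩ hp
    rw [mem_filter] at hp
    obtain ⟨-, hadj, hne⟩ := hp
    simp only at hadj hne
    rw [h] at hadj
    rw [mem_union, mem_product, mem_product]
    simp only [mem_inter, mem_sdiff]
    by_cases h1 : a ∈ V1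
    · by_cases h2 : b ∈ V1
      · simp [h1, h2] at hne
      · rcases hadj.2 with h3 | h3
        · exact absurd h3.2 h2
        · exact Or.inl ⟨⟨h1, h3.1⟩, h3.2, h2⟩
    · by_cases h2 : b ∈ V1
      · rcases hadj.2 with h3 | h3
        · exact absurd h3.1 h1
        · exact Or.inr ⟨⟨h3.1, h1⟩, h2, h3.2⟩
      · simp [h1, h2] at hne
  have hcard := (card_le_card hsub).trans (card_union_le _ _)
  rw [card_product, card_product] at hcard
  have h5 : (V2 \ V1).card * (V1 ∩ V2).card = (V1 ∩ V2).card * (V2 \ V1).card := mul_comm _ _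
  rw [h5] at hcard
  have h6 : 2 * F.card ≤ 2 * 2 + ((V1 ∩ V2).card * (V2 \ V1).card +
      (V1 ∩ V2).card * (V2 \ V1).card) := by
    refine hF3.trans ?_
    have h7 := hcard
    convert Nat.add_le_add_left h7 (2 * 2) using 4
  omega

private theorem t2_num {n a b c : ℕ} (h : a + b + c ≤ n) (hba : b ≤ a) :
    8 * (c * b) ≤ n ^ 2 := by
  have h1 : 2 * b + c ≤ n := by omega
  have h2 : (2 * b + c) ^ 2 ≤ n ^ 2 := Nat.pow_le_pow_left h1 2
  have h3 : 8 * (c * b) ≤ (2 * b + c) ^ 2 := by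
    zify
    nlinarith [sq_nonneg ((2 * b : ℤ) - c)]
  omega

/-- T2: graphs covered by two cliques -/
theorem two (hL : LabelLem) : Two := by
  intro n G V1 V2 h
  have hsum : (V1 \ V2).card + (V2 \ V1).card + (V1 ∩ V2).card ≤ n := by
    have h1 : Disjoint (V1 \ V2) (V2 \ V1) := by
      rw [disjoint_left]
      intro x hx hx'
      rw [mem_sdiff] at hx hx'
      exact hx.2 hx'.1
    have h2 : Disjoint (V1 \ V2 ∪ V2 \ V1) (V1 ∩ V2) := by
      rw [disjoint_left]
      intro x hx hx'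
      rw [mem_union, mem_sdiff, mem_sdiff] at hx
      rw [mem_inter] at hx'
      rcases hx with hx | hx
      · exact hx.2 hx'.2
      · exact hx.2 hx'.1
    rw [← card_union_of_disjoint h1, ← card_union_of_disjoint h2]
    exact (card_le_univ _).trans (by simp)
  rcases le_total (V2 \ V1).card (V1 \ V2).card with hle | hle
  · obtain ⟨F, h1, h2, h3⟩ := t2_aux hL n G V1 V2 h
    refine ⟨F, h1, h2, ?_⟩
    have h4 := t2_num hsum hle
    omega
  · obtain ⟨F, h1, h2, h3⟩ := t2_aux hL n G V2 V1 (by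
      intro u v
      rw [h]
      tauto)
    refine ⟨F, h1, h2, ?_⟩
    rw [inter_comm V2 V1] at h3
    have h4 := t2_num (n := n) (a := (V2 \ V1).card) (b := (V1 \ V2).card)
      (c := (V1 ∩ V2).card) (by omega) hle
    omega

end H801.CQ
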