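import Mathlib
import Pool.Agent.H801R5.CQ.Defs

/-! Task T3a (helper153): three cliques, ordered case. -/

namespace H801.CQ

open Finset Classical

/-- two codes share a bit -/
def t3Sh (a b : Fin 8) : Bool := decide (a.1 &&& b.1 ≠ 0)

/-- code of a membership pattern -/
def t3Cod (a b c : Bool) : Fin 8 :=
  ⟨a.toNat + 2 * b.toNat + 4 * c.toNat, by cases a <;> cases b <;> cases c <;> decide⟩

lemma t3Sh_cod : ∀ a b c a' b' c' : Bool, t3Sh (t3Cod a b c) (t3Cod a' b' c') = true ↔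
    ((a = true ∧ a' = true) ∨ (b = true ∧ b' = true) ∨ (c = true ∧ c' = true)) := by
  decide

lemma t3Cod_1 : ∀ a b c : Bool, t3Cod a b c = 1 ↔ (a = true ∧ ¬ b = true ∧ ¬ c = true) := by
  decide

lemma t3Cod_2 : ∀ a b c : Bool, t3Cod a b c = 2 ↔ (¬ a = true ∧ b = true ∧ ¬ c = true) := by
  decide

lemma t3Cod_4 : ∀ a b c : Bool, t3Cod a b c = 4 ↔ (¬ a = true ∧ ¬ b = true ∧ c = true) := by
  decide

/-- the four labellings -/
def t3D : Fin 8 → Fin 4 := ![0, 1, 2, 0, 3, 0, 0, 0]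
def t3A1 : Fin 8 → Fin 4 := ![0, 0, 1, 0, 2, 0, 1, 0]
def t3A2 : Fin 8 → Fin 4 := ![0, 1, 0, 0, 2, 1, 0, 0]
def t3A3 : Fin 8 → Fin 4 := ![0, 1, 2, 1, 0, 0, 0, 0]

/-- the pairs counted -/
def t3T (l : Fin 8 → Fin 4) (a b : Fin 8) : Bool := t3Sh a b && decide (l a ≠ l b)

lemma t3_key (hL : LabelLem) (hC : CountLem) (n : ℕ) (G : SimpleGraph (Fin n)) (r : Fin n → Fin 8)
    (hG : ∀ u v, G.Adj u v ↔ u ≠ v ∧ t3Sh (r u) (r v) = true) (l : Fin 8 → Fin 4)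
    (hl : ∀ a b, a ≠ 0 → b ≠ 0 → l a = l b → t3Sh a b = true) :
    ∃ F : Finset (Finset (Fin n)), IsCliqueFamily G F ∧ PartitionsEdges G F ∧
      2 * F.card ≤ 8 + ∑ a, ∑ b, if t3T l a b = true then
        (univ.filter (fun u => r u = a)).card * (univ.filter (fun u => r u = b)).card else 0 := by
  have hz : ∀ b : Fin 8, t3Sh 0 b = false := by decide
  obtain ⟨F, hF1, hF2, hF3⟩ := hL n 4 G (fun u => l (r u)) (by
    intro u v huv hlab hu hv
    have hu0 : r u ≠ 0 := by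
      obtain ⟨w, hw⟩ := hu
      intro h0
      have := ((hG u w).1 hw).2
      rw [h0, hz] at this
      exact Bool.noConfusion this
    have hv0 : r v ≠ 0 := by
      obtain ⟨w, hw⟩ := hv
      intro h0
      have := ((hG v w).1 hw).2
      rw [h0, hz] at this
      exact Bool.noConfusion this
    exact (hG u v).2 ⟨huv, hl _ _ hu0 hv0 hlab⟩)
  refine ⟨F, hF1, hF2, ?_⟩
  rw [← hC n r (t3T l)]
  have h : ((univ : Finset (Fin n × Fin n)).filter (fun p => G.Adj p.1 p.2 ∧ l (r p.1) ≠ l (r p.2))) =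
      ((univ : Finset (Fin n × Fin n)).filter (fun p => t3T l (r p.1) (r p.2) = true)) := by
    apply Finset.filter_congr
    intro p _
    rw [hG]
    simp only [t3T, Bool.and_eq_true, decide_eq_true_eq]
    constructor
    · rintro ⟨⟨_, h1⟩, h2⟩
      exact ⟨h1, h2⟩
    · rintro ⟨h1, h2⟩
      refine ⟨⟨?_, h1⟩, h2⟩
      intro h3
      apply h2
      rw [h3]
  rw [← h]
  exact hF3

lemma t3_sumD (N : Fin 8 → ℕ) : (∑ a, ∑ b, if t3T t3D a b = true then N a * N b else 0) =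
    2 * (N 1 * (N 5 + N 3 + N 7) + N 2 * (N 6 + N 3 + N 7) + N 4 * (N 6 + N 5 + N 7)) := by
  simp only [Fin.sum_univ_eight, t3T, t3Sh, t3D]
  simp
  ring

lemma t3_sumA1 (N : Fin 8 → ℕ) : (∑ a, ∑ b, if t3T t3A1 a b = true then N a * N b else 0) =
    2 * (N 2 * (N 3 + N 7) + N 4 * (N 5 + N 7) + N 6 * (N 5 + N 3 + N 7) + N 6 * N 4) := by
  simp only [Fin.sum_univ_eight, t3T, t3Sh, t3A1]
  simp
  ring

lemma t3_sumA2 (N : Fin 8 → ℕ) : (∑ a, ∑ b, if t3T t3A2 a b = true then N a * N b else 0) =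
    2 * (N 1 * (N 3 + N 7) + N 4 * (N 6 + N 7) + N 5 * (N 6 + N 3 + N 7) + N 5 * N 4) := by
  simp only [Fin.sum_univ_eight, t3T, t3Sh, t3A2]
  simp
  ring

lemma t3_sumA3 (N : Fin 8 → ℕ) : (∑ a, ∑ b, if t3T t3A3 a b = true then N a * N b else 0) =
    2 * (N 1 * (N 5 + N 7) + N 2 * (N 6 + N 7) + N 3 * (N 6 + N 5 + N 7) + N 3 * N 2) := by
  simp only [Fin.sum_univ_eight, t3T, t3Sh, t3A3]
  simp
  ring

theorem threeOrd (hL : LabelLem) (hC : CountLem) (hI : Ineq) : ThreeOrd := by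
  intro n G V1 V2 V3 hG h32 h21
  set r : Fin n → Fin 8 := fun u => t3Cod (decide (u ∈ V1)) (decide (u ∈ V2)) (decide (u ∈ V3)) with hr
  have hG' : ∀ u v, G.Adj u v ↔ u ≠ v ∧ t3Sh (r u) (r v) = true := by
    intro u v
    rw [hG, hr, t3Sh_cod]
    simp only [decide_eq_true_eq]
  have hN4 : (univ.filter (fun u => u ∉ V1 ∧ u ∉ V2 ∧ u ∈ V3)) = univ.filter (fun u => r u = 4) := by
    apply Finset.filter_congr
    intro u _
    rw [hr, t3Cod_4]
    simp only [decide_eq_true_eq]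
  have hN2 : (univ.filter (fun u => u ∉ V1 ∧ u ∈ V2 ∧ u ∉ V3)) = univ.filter (fun u => r u = 2) := by
    apply Finset.filter_congr
    intro u _
    rw [hr, t3Cod_2]
    simp only [decide_eq_true_eq]
  have hN1 : (univ.filter (fun u => u ∈ V1 ∧ u ∉ V2 ∧ u ∉ V3)) = univ.filter (fun u => r u = 1) := by
    apply Finset.filter_congr
    intro u _
    rw [hr, t3Cod_1]
    simp only [decide_eq_true_eq]
  rw [hN4, hN2] at h32
  rw [hN2, hN1] at h21
  set N : Fin 8 → ℕ := fun a => (univ.filter (fun u => r u = a)).card with hN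
  have hsum : ∑ a, N a = n := by
    have h1 := Finset.card_eq_sum_card_fiberwise (f := r) (s := univ) (t := univ)
      (fun _ _ => by simp)
    rw [Finset.card_univ, Fintype.card_fin] at h1
    exact h1.symm
  rw [Fin.sum_univ_eight] at hsum
  change N 4 ≤ N 2 at h32
  change N 2 ≤ N 1 at h21
  obtain ⟨F0, hF01, hF02, hF03⟩ := t3_key hL hC n G r hG' t3D (by decide)
  obtain ⟨F1, hF11, hF12, hF13⟩ := t3_key hL hC n G r hG' t3A1 (by decide)
  obtain ⟨F2, hF21, hF22, hF23⟩ := t3_key hL hC n G r hG' t3A2 (by decide)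
  obtain ⟨F3, hF31, hF32, hF33⟩ := t3_key hL hC n G r hG' t3A3 (by decide)
  have e0 := t3_sumD N
  have e1 := t3_sumA1 N
  have e2 := t3_sumA2 N
  have e3 := t3_sumA3 N
  change 2 * F0.card ≤ 8 + ∑ a, ∑ b, if t3T t3D a b = true then N a * N b else 0 at hF03
  change 2 * F1.card ≤ 8 + ∑ a, ∑ b, if t3T t3A1 a b = true then N a * N b else 0 at hF13
  change 2 * F2.card ≤ 8 + ∑ a, ∑ b, if t3T t3A2 a b = true then N a * N b else 0 at hF23
  change 2 * F3.card ≤ 8 + ∑ a, ∑ b, if t3T t3A3 a b = true then N a * N b else 0 at hF33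
  rw [e0] at hF03
  rw [e1] at hF13
  rw [e2] at hF23
  rw [e3] at hF33
  clear e0 e1 e2 e3 hN hN1 hN2 hN4
  clear_value N
  by_contra hcon
  have g0 : 3 * n ^ 2 + 64 < 16 * F0.card := by
    by_contra h
    exact hcon ⟨F0, hF01, hF02, not_lt.1 h⟩
  have g1 : 3 * n ^ 2 + 64 < 16 * F1.card := by
    by_contra h
    exact hcon ⟨F1, hF11, hF12, not_lt.1 h⟩
  have g2 : 3 * n ^ 2 + 64 < 16 * F2.card := by
    by_contra h
    exact hcon ⟨F2, hF21, hF22, not_lt.1 h⟩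
  have g3 : 3 * n ^ 2 + 64 < 16 * F3.card := by
    by_contra h
    exact hcon ⟨F3, hF31, hF32, not_lt.1 h⟩
  have hin := hI (N 1) (N 2) (N 4) (N 6) (N 5) (N 3) (N 7) (Nat.cast_nonneg _) (Nat.cast_le.2 h32)
    (Nat.cast_le.2 h21) (Nat.cast_nonneg _) (Nat.cast_nonneg _) (Nat.cast_nonneg _) (Nat.cast_nonneg _)
  have hle : ((N 1 : ℝ) + N 2 + N 4 + N 6 + N 5 + N 3 + N 7) ≤ n := by
    have : N 1 + N 2 + N 4 + N 6 + N 5 + N 3 + N 7 ≤ n := by omega
    exact_mod_cast this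
  have hle2 : ((N 1 : ℝ) + N 2 + N 4 + N 6 + N 5 + N 3 + N 7) ^ 2 ≤ (n : ℝ) ^ 2 := by
    apply pow_le_pow_left₀ (by positivity) hle
  have k0 : (3 * (n : ℝ) ^ 2 + 64) < 16 * (F0.card : ℝ) := by exact_mod_cast g0
  have k1 : (3 * (n : ℝ) ^ 2 + 64) < 16 * (F1.card : ℝ) := by exact_mod_cast g1
  have k2 : (3 * (n : ℝ) ^ 2 + 64) < 16 * (F2.card : ℝ) := by exact_mod_cast g2
  have k3 : (3 * (n : ℝ) ^ 2 + 64) < 16 * (F3.card : ℝ) := by exact_mod_cast g3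
  have m0 : 2 * (F0.card : ℝ) ≤ 8 + 2 * (N 1 * (N 5 + N 3 + N 7) + N 2 * (N 6 + N 3 + N 7) +
      N 4 * (N 6 + N 5 + N 7)) := by exact_mod_cast hF03
  have m1 : 2 * (F1.card : ℝ) ≤ 8 + 2 * (N 2 * (N 3 + N 7) + N 4 * (N 5 + N 7) +
      N 6 * (N 5 + N 3 + N 7) + N 6 * N 4) := by exact_mod_cast hF13
  have m2 : 2 * (F2.card : ℝ) ≤ 8 + 2 * (N 1 * (N 3 + N 7) + N 4 * (N 6 + N 7) +
      N 5 * (N 6 + N 3 + N 7) + N 5 * N 4) := by exact_mod_cast hF23
  have m3 : 2 * (F3.card : ℝ) ≤ 8 + 2 * (N 1 * (N 5 + N 7) + N 2 * (N 6 + N 7) +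
      N 3 * (N 6 + N 5 + N 7) + N 3 * N 2) := by exact_mod_cast hF33
  clear hcon hG' hG hL hC
  linarith

end H801.CQ
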