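import Mathlib
import Pool.Agent.H801R5.CQ.Defs

namespace H801.CQ

open Finset Classical

theorem three (h : ThreeOrd) : Three := by
  intro n G V1 V2 V3 hG
  -- symmetric form of the sizes of the private parts
  have key : ∀ A B C : Finset (Fin n),
      (∀ u v, G.Adj u v ↔ u ≠ v ∧ ((u ∈ A ∧ v ∈ A) ∨ (u ∈ B ∧ v ∈ B) ∨ (u ∈ C ∧ v ∈ C))) →
      (univ.filter (fun u => u ∈ C ∧ u ∉ A ∧ u ∉ B)).card ≤
        (univ.filter (fun u => u ∈ B ∧ u ∉ A ∧ u ∉ C)).card →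
      (univ.filter (fun u => u ∈ B ∧ u ∉ A ∧ u ∉ C)).card ≤
        (univ.filter (fun u => u ∈ A ∧ u ∉ B ∧ u ∉ C)).card →
      ∃ F : Finset (Finset (Fin n)), IsCliqueFamily G F ∧ PartitionsEdges G F ∧
        16 * F.card ≤ 3 * n ^ 2 + 64 := by
    intro A B C hadj h1 h2
    have e3 : (univ.filter (fun u => u ∉ A ∧ u ∉ B ∧ u ∈ C)) =
        (univ.filter (fun u => u ∈ C ∧ u ∉ A ∧ u ∉ B)) := by
      apply Finset.filter_congr
      intro x _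
      tauto
    have e2 : (univ.filter (fun u => u ∉ A ∧ u ∈ B ∧ u ∉ C)) =
        (univ.filter (fun u => u ∈ B ∧ u ∉ A ∧ u ∉ C)) := by
      apply Finset.filter_congr
      intro x _
      tauto
    refine h n G A B C hadj ?_ ?_
    · rw [e3, e2]
      exact h1
    · rw [e2]
      exact h2
  have comm : ∀ A B C : Finset (Fin n), (univ.filter (fun u => u ∈ A ∧ u ∉ B ∧ u ∉ C)) =
      (univ.filter (fun u => u ∈ A ∧ u ∉ C ∧ u ∉ B)) := by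
    intro A B C
    apply Finset.filter_congr
    intro x _
    tauto
  have adj : ∀ A B C : Finset (Fin n), (∀ u v, (((u ∈ A ∧ v ∈ A) ∨ (u ∈ B ∧ v ∈ B) ∨
      (u ∈ C ∧ v ∈ C)) ↔ ((u ∈ V1 ∧ v ∈ V1) ∨ (u ∈ V2 ∧ v ∈ V2) ∨ (u ∈ V3 ∧ v ∈ V3)))) →
      (∀ u v, G.Adj u v ↔ u ≠ v ∧ ((u ∈ A ∧ v ∈ A) ∨ (u ∈ B ∧ v ∈ B) ∨ (u ∈ C ∧ v ∈ C))) := by
    intro A B C hh u v
    rw [hG, hh]
  have c1 := comm V1 V2 V3
  have c2 := comm V2 V1 V3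
  have c3 := comm V3 V1 V2
  rcases le_total (univ.filter (fun u => u ∈ V1 ∧ u ∉ V2 ∧ u ∉ V3)).card
      (univ.filter (fun u => u ∈ V2 ∧ u ∉ V1 ∧ u ∉ V3)).card with a | a <;>
    rcases le_total (univ.filter (fun u => u ∈ V1 ∧ u ∉ V2 ∧ u ∉ V3)).card
      (univ.filter (fun u => u ∈ V3 ∧ u ∉ V1 ∧ u ∉ V2)).card with b | b <;>
    rcases le_total (univ.filter (fun u => u ∈ V2 ∧ u ∉ V1 ∧ u ∉ V3)).card
      (univ.filter (fun u => u ∈ V3 ∧ u ∉ V1 ∧ u ∉ V2)).card with c | c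
  · -- 1 ≤ 2 ≤ 3
    refine key V3 V2 V1 (adj _ _ _ (fun u v => by tauto)) ?_ ?_
    · rw [← c1, ← c2]; exact a
    · rw [← c2, ← c3]; exact c
  · -- 1 ≤ 3 ≤ 2
    refine key V2 V3 V1 (adj _ _ _ (fun u v => by tauto)) ?_ ?_
    · rw [← c3]; exact b
    · rw [← c3, ← c2]; exact c
  · -- 3 ≤ 1 ≤ 2, 2 ≤ 3
    refine key V3 V2 V1 (adj _ _ _ (fun u v => by tauto)) ?_ ?_
    · rw [← c1, ← c2]; exact a
    · rw [← c2, ← c3]; exact c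
  · -- 3 ≤ 1 ≤ 2
    refine key V2 V1 V3 (adj _ _ _ (fun u v => by tauto)) ?_ ?_
    · rw [← c3]; exact b
    · exact a
  · -- 2 ≤ 1 ≤ 3
    refine key V3 V1 V2 (adj _ _ _ (fun u v => by tauto)) ?_ ?_
    · rw [← c1]
      rw [← c2]
      exact a
    · rw [← c1]; exact b
  · -- 2 ≤ 1 ≤ 3 ≤ 2
    refine key V3 V1 V2 (adj _ _ _ (fun u v => by tauto)) ?_ ?_
    · rw [← c1]
      rw [← c2]
      exact a
    · rw [← c1]; exact b
  · -- 2 ≤ 3 ≤ 1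
    refine key V1 V3 V2 (adj _ _ _ (fun u v => by tauto)) ?_ ?_
    · exact c
    · rw [← c1]; exact b
  · -- 3 ≤ 2 ≤ 1
    exact key V1 V2 V3 hG c a

end H801.CQ
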